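import Pool.Agent.H31.ST.Targets

/-! Modules ADMV and COUNT: admissible words. -/

noncomputable section

namespace H31.ST.H73

open H31.ST

lemma drun_append (w w' : List Sym) (d : ℝ × ℝ) : drun (w ++ w') d = drun w' (drun w d) := by
  induction w generalizing d with
  | nil => rfl
  | cons s w ih => simp only [List.cons_append, drun]; exact ih _

lemma drun_snoc (w : List Sym) (σ : Sym) (d : ℝ × ℝ) : drun (w ++ [σ]) d = dstep σ (drun w d) := by
  rw [drun_append]; rfl

/-- reachable states are genuine states -/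
def Good (a : ℕ → ℕ) : St → Prop
  | St.plus _ => True
  | St.minus k j => 1 ≤ j ∧ j ≤ a k

lemma step_good {a : ℕ → ℕ} (ha : ∀ k, 1 ≤ a k) {t r : St} {σ : Sym} (h : Step a t σ r) :
    Good a r := by
  cases h with
  | pp k i h1 h2 => trivial
  | pm k i h1 h2 => exact ⟨le_rfl, ha _⟩
  | mm k j h1 h2 => exact ⟨by omega, by omega⟩
  | mp k i h1 h2 => trivial
  | mn k i h1 h2 => exact ⟨le_rfl, ha _⟩

lemma step_valid {a : ℕ → ℕ} {t r : St} {σ : Sym} (h : Step a t σ r) : σ.Valid := by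
  cases h with
  | pp k i h1 h2 => exact ⟨by simp only; omega, h1, h2⟩
  | pm k i h1 h2 => exact ⟨by simp only; omega, h1, by simp only; omega⟩
  | mm k j h1 h2 => exact ⟨le_rfl, le_rfl, le_rfl⟩
  | mp k i h1 h2 => exact ⟨by simp only; omega, h1, by simp only; omega⟩
  | mn k i h1 h2 => exact ⟨by simp only; omega, h1, by simp only; omega⟩

lemma step_deg {a : ℕ → ℕ} (ha : ∀ k, 1 ≤ a k) {t r : St} {σ : Sym} (h : Step a t σ r) :
    ((dP a r : ℝ), (dQ a r : ℝ)) = dstep σ ((dP a t : ℝ), (dQ a t : ℝ)) := by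
  cases h with
  | pp k i h1 h2 =>
    simp only [dstep, dP, dQ, Sym.e, qd, Prod.mk.injEq, if_true]
    refine ⟨trivial, by push_cast; ring⟩
  | pm k i h1 h2 =>
    simp only [dstep, dP, dQ, Sym.e, qd, Prod.mk.injEq, if_true]
    refine ⟨by push_cast; ring, by push_cast; ring⟩
  | mm k j h1 h2 =>
    obtain ⟨j, rfl⟩ : ∃ j', j = j' + 1 := ⟨j - 1, by omega⟩
    simp only [dstep, dP, dQ, Sym.e, Prod.mk.injEq, Bool.false_eq_true, if_false,
      Nat.add_sub_cancel]
    refine ⟨trivial, by push_cast; ring⟩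
  | mp k i h1 h2 =>
    obtain ⟨c, hc⟩ : ∃ c, a k = c + 1 := ⟨a k - 1, by have := ha k; omega⟩
    simp only [dstep, dP, dQ, Sym.e, qd, Prod.mk.injEq, Bool.false_eq_true, if_false, hc,
      Nat.add_sub_cancel]
    refine ⟨by push_cast; ring, by push_cast; ring⟩
  | mn k i h1 h2 =>
    obtain ⟨c, hc⟩ : ∃ c, a k = c + 1 := ⟨a k - 1, by have := ha k; omega⟩
    simp only [dstep, dP, dQ, Sym.e, qd, Prod.mk.injEq, Bool.false_eq_true, if_false, hc,
      Nat.add_sub_cancel]
    refine ⟨by push_cast; ring, by push_cast; ring⟩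

lemma root_good {a : ℕ → ℕ} (ha : ∀ k, 1 ≤ a k) (b : Bool) : Good a (rootSt b) := by
  cases b
  · trivial
  · exact ⟨le_rfl, ha 0⟩

lemma adm_good {a : ℕ → ℕ} (ha : ∀ k, 1 ≤ a k) {b : Bool} {w : List Sym} {s : St}
    (h : Adm a (rootSt b) w s) : Good a s := by
  induction h with
  | nil => exact root_good ha b
  | snoc h h' ih => exact step_good ha h'

theorem admv : T_ADMV := by
  intro a ha b w s h
  suffices hs : VW w ∧ ((dP a s : ℝ), (dQ a s : ℝ)) = drun w (0, 1) by
    refine ⟨hs.1, ?_, ?_⟩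
    · rw [← hs.2]
    · unfold deg; rw [← hs.2]
  induction h with
  | nil =>
    refine ⟨by intro s hs; simp at hs, ?_⟩
    cases b <;> simp [rootSt, dP, dQ, qd, drun]
  | snoc h h' ih =>
    obtain ⟨ih1, ih2⟩ := ih
    refine ⟨?_, ?_⟩
    · intro s hs
      rw [List.mem_append, List.mem_singleton] at hs
      rcases hs with hs | rfl
      · exact ih1 s hs
      · exact step_valid h'
    · rw [drun_snoc, ← ih2]
      exact step_deg ha h'

/-! ### COUNT -/

/-- transitions are deterministic -/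
def nextSt (a : ℕ → ℕ) : St → Sym → St
  | St.plus k, σ => if σ.m = a k then St.plus (k + 1) else St.minus (k + 1) 1
  | St.minus k j, σ => if j < a k then St.minus k (j + 1) else
      if σ.m = a (k + 1) + 1 then St.plus (k + 2) else St.minus (k + 2) 1

lemma step_next {a : ℕ → ℕ} {t r : St} {σ : Sym} (h : Step a t σ r) : r = nextSt a t σ := by
  cases h with
  | pp k i h1 h2 => simp [nextSt]
  | pm k i h1 h2 => simp [nextSt]
  | mm k j h1 h2 => simp [nextSt, h2]
  | mp k i h1 h2 => simp [nextSt]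
  | mn k i h1 h2 => simp [nextSt]

lemma adm_next {a : ℕ → ℕ} {s r : St} {w : List Sym} (h : Adm a s w r) :
    r = w.foldl (nextSt a) s := by
  induction h with
  | nil => rfl
  | snoc h h' ih =>
    rw [List.foldl_append, ← ih]
    exact step_next h'

lemma ext_codes {a : ℕ → ℕ} {t r : St} (F₁ F₂ : Finset (Bool × List Sym)) (I₁ I₂ : Finset ℕ)
    (m₁ m₂ : ℕ) (hF₁ : ∀ c ∈ F₁, Adm a (rootSt c.1) c.2 t)
    (h₁ : ∀ i ∈ I₁, Step a t ⟨true, m₁, i⟩ r)
    (h₂ : ∀ c ∈ F₂, ∀ i ∈ I₂, Adm a (rootSt c.1) (c.2 ++ [⟨false, m₂, i⟩]) r) :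
    ∃ F : Finset (Bool × List Sym), F.card = F₁.card * I₁.card + F₂.card * I₂.card ∧
      ∀ c ∈ F, Adm a (rootSt c.1) c.2 r := by
  classical
  set G : Bool → ℕ → ((Bool × List Sym) × ℕ) → Bool × List Sym :=
    fun p m q => (q.1.1, q.1.2 ++ [⟨p, m, q.2⟩]) with hG
  have hinj : ∀ p m, Function.Injective (G p m) := by
    rintro p m ⟨⟨b, w⟩, i⟩ ⟨⟨b', w'⟩, i'⟩ h
    simp only [hG, Prod.mk.injEq] at h
    obtain ⟨h1, h2⟩ := List.append_inj' h.2 rfl
    simp only [List.cons.injEq, Sym.mk.injEq, and_true, true_and] at h2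
    simp [h.1, h1, h2]
  refine ⟨(F₁ ×ˢ I₁).image (G true m₁) ∪ (F₂ ×ˢ I₂).image (G false m₂), ?_, ?_⟩
  · rw [Finset.card_union_of_disjoint, Finset.card_image_of_injective _ (hinj _ _),
      Finset.card_image_of_injective _ (hinj _ _), Finset.card_product, Finset.card_product]
    rw [Finset.disjoint_left]
    rintro c hc hc'
    simp only [Finset.mem_image] at hc hc'
    obtain ⟨q, _, rfl⟩ := hc
    obtain ⟨q', _, h⟩ := hc'
    simp only [hG, Prod.mk.injEq] at h
    obtain ⟨h1, h2⟩ := List.append_inj' h.2 rfl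
    simp at h2
  · intro c hc
    simp only [Finset.mem_union, Finset.mem_image, Finset.mem_product] at hc
    rcases hc with ⟨q, ⟨hq1, hq2⟩, rfl⟩ | ⟨q, ⟨hq1, hq2⟩, rfl⟩
    · exact Adm.snoc (hF₁ _ hq1) (h₁ _ hq2)
    · exact h₂ _ hq1 _ hq2

lemma adm_replicate {a : ℕ → ℕ} {s : St} {w : List Sym} {k : ℕ} (h : Adm a s w (St.minus k 1)) :
    ∀ n, n < a k → Adm a s (w ++ List.replicate n ⟨false, 2, 1⟩) (St.minus k (n + 1)) := by
  intro n
  induction n with
  | zero => intro _; simpa using h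
  | succ n ih =>
    intro hn
    have h1 := ih (by omega)
    have h2 := Adm.snoc h1 (Step.mm k (n + 1) (by omega) (by omega))
    rw [List.append_assoc, ← List.replicate_succ'] at h2
    exact h2

lemma codes (a : ℕ → ℕ) (ha : ∀ k, 1 ≤ a k) : ∀ k, ∃ P Q Q' : Finset (Bool × List Sym),
    (∀ c ∈ P, Adm a (rootSt c.1) c.2 (St.plus k)) ∧
    (∀ c ∈ Q, Adm a (rootSt c.1) c.2 (St.minus k 1)) ∧
    (∀ c ∈ Q', ∃ l, k = l + 1 ∧ Adm a (rootSt c.1) c.2 (St.minus l (a l))) ∧
    P.card + Q'.card = qd a (k + 1) ∧ Q.card = P.card + qd a k := by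
  classical
  intro k
  induction k with
  | zero =>
    refine ⟨{(false, [])}, {(true, [])}, ∅, ?_, ?_, ?_, ?_, ?_⟩
    · intro c hc
      rw [Finset.mem_singleton] at hc
      subst hc
      exact Adm.nil _
    · intro c hc
      rw [Finset.mem_singleton] at hc
      subst hc
      exact Adm.nil _
    · intro c hc
      simp at hc
    · simp [qd]
    · simp [qd]
  | succ k ih =>
    obtain ⟨P, Q, Q', hP, hQ, hQ', e1, e2⟩ := ih
    obtain ⟨P₂, hP₂c, hP₂⟩ := ext_codes (a := a) (t := St.plus k) (r := St.plus (k + 1)) P Q'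
      (Finset.Icc 1 (a k - 1)) (Finset.Icc 1 (a k)) (a k) (a k + 1) hP
      (fun i hi => by
        rw [Finset.mem_Icc] at hi
        exact Step.pp k i hi.1 (by omega))
      (fun c hc i hi => by
        rw [Finset.mem_Icc] at hi
        obtain ⟨l, rfl, hl⟩ := hQ' c hc
        exact Adm.snoc hl (Step.mp l i hi.1 hi.2))
    obtain ⟨Q₂, hQ₂c, hQ₂⟩ := ext_codes (a := a) (t := St.plus k) (r := St.minus (k + 1) 1) P Q'
      (Finset.Icc 1 (a k)) (Finset.Icc 1 (a k + 1)) (a k + 1) (a k + 2) hP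
      (fun i hi => by
        rw [Finset.mem_Icc] at hi
        exact Step.pm k i hi.1 hi.2)
      (fun c hc i hi => by
        rw [Finset.mem_Icc] at hi
        obtain ⟨l, rfl, hl⟩ := hQ' c hc
        exact Adm.snoc hl (Step.mn l i hi.1 hi.2))
    have hak := ha k
    set f : Bool × List Sym → Bool × List Sym :=
      fun c => (c.1, c.2 ++ List.replicate (a k - 1) ⟨false, 2, 1⟩) with hf
    have hfinj : Function.Injective f := by
      rintro ⟨b, w⟩ ⟨b', w'⟩ h
      simp only [hf, Prod.mk.injEq] at h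
      simp [h.1, List.append_cancel_right h.2]
    refine ⟨P₂, Q₂, Q.image f, hP₂, hQ₂, ?_, ?_, ?_⟩
    · intro c hc
      rw [Finset.mem_image] at hc
      obtain ⟨c', hc', rfl⟩ := hc
      refine ⟨k, rfl, ?_⟩
      have h := adm_replicate (hQ c' hc') (a k - 1) (by omega)
      have e : a k - 1 + 1 = a k := by omega
      rw [e] at h
      exact h
    · rw [Finset.card_image_of_injective _ hfinj, hP₂c, Nat.card_Icc, Nat.card_Icc, e2]
      have e3 : qd a (k + 1 + 1) = a k * qd a (k + 1) + qd a k := rfl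
      rw [e3, ← e1]
      obtain ⟨c, hc⟩ : ∃ c, a k = c + 1 := ⟨a k - 1, by omega⟩
      rw [hc]
      simp only [Nat.add_sub_cancel]
      ring
    · rw [hP₂c, hQ₂c, Nat.card_Icc, Nat.card_Icc, Nat.card_Icc, ← e1]
      obtain ⟨c, hc⟩ : ∃ c, a k = c + 1 := ⟨a k - 1, by omega⟩
      rw [hc]
      simp only [Nat.add_sub_cancel]
      ring

theorem count : T_COUNT := by
  classical
  intro a ha n hn
  obtain ⟨k, rfl⟩ : ∃ k, n = k + 1 := ⟨n - 1, by omega⟩
  obtain ⟨P, Q, Q', hP, hQ, hQ', e1, e2⟩ := codes a ha k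
  refine ⟨P ∪ Q', ?_, ?_⟩
  · rw [Finset.card_union_of_disjoint, e1]
    rw [Finset.disjoint_left]
    intro c hc hc'
    obtain ⟨l, rfl, hl⟩ := hQ' c hc'
    have h1 := adm_next (hP c hc)
    have h2 := adm_next hl
    rw [← h1] at h2
    cases h2
  · intro c hc
    rw [Finset.mem_union] at hc
    rcases hc with hc | hc
    · exact ⟨_, hP c hc, rfl⟩
    · obtain ⟨l, rfl, hl⟩ := hQ' c hc
      exact ⟨_, hl, rfl, rfl⟩

end H31.ST.H73
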