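import Pool.Agent.H73.ST.Adm

/-! Module SUM: the sum along an admissible word. -/

noncomputable section

namespace H31.ST.H73

open H31.ST

lemma qd_pos {a : ℕ → ℕ} (ha : ∀ k, 1 ≤ a k) : ∀ k, 1 ≤ qd a (k + 1) := by
  intro k
  induction k with
  | zero => exact le_rfl
  | succ k ih =>
    have e : qd a (k + 1 + 1) = a k * qd a (k + 1) + qd a k := rfl
    rw [e]
    have := Nat.mul_le_mul (ha k) ih
    omega

lemma qd_mono {a : ℕ → ℕ} (ha : ∀ k, 1 ≤ a k) (k : ℕ) : qd a (k + 1) ≤ qd a (k + 2) := by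
  have e : qd a (k + 2) = a k * qd a (k + 1) + qd a k := rfl
  rw [e]
  have := Nat.mul_le_mul_right (qd a (k + 1)) (ha k)
  omega

lemma qd_growth {a : ℕ → ℕ} (ha : ∀ k, 1 ≤ a k) : ∀ k, 2 ^ k ≤ 2 * (qd a (k + 1)) ^ 2
  | 0 => by
    have := Nat.pow_le_pow_left (qd_pos ha 0) 2
    simp at this ⊢
    omega
  | 1 => by
    have := Nat.pow_le_pow_left (qd_pos ha 1) 2
    omega
  | (k + 2) => by
    have ih := qd_growth ha k
    have h1 : 2 * qd a (k + 1) ≤ qd a (k + 2 + 1) := by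
      have e : qd a (k + 2 + 1) = a (k + 1) * qd a (k + 2) + qd a (k + 1) := rfl
      rw [e]
      have h2 := qd_mono ha k
      have h3 := Nat.mul_le_mul_right (qd a (k + 2)) (ha (k + 1))
      omega
    calc 2 ^ (k + 2) = 4 * 2 ^ k := by ring
      _ ≤ 4 * (2 * (qd a (k + 1)) ^ 2) := Nat.mul_le_mul_left _ ih
      _ = 2 * (2 * qd a (k + 1)) ^ 2 := by ring
      _ ≤ 2 * (qd a (k + 2 + 1)) ^ 2 := Nat.mul_le_mul_left _ (Nat.pow_le_pow_left h1 2)

/-- index of a state -/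
def idx : St → ℕ
  | St.plus k => k
  | St.minus k _ => k

lemma dQ_ge {a : ℕ → ℕ} {s : St} (h : Good a s) : qd a (idx s + 1) ≤ dQ a s := by
  cases s with
  | plus k => exact le_rfl
  | minus k j =>
    have h1 : 1 ≤ j := h.1
    show qd a (k + 1) ≤ qd a k + j * qd a (k + 1)
    have := Nat.mul_le_mul_right (qd a (k + 1)) h1
    omega

/-- the ratio -/
def rr : ℝ := (2 : ℝ) ^ (-(1 / 6) : ℝ)

lemma rr_pos : 0 < rr := Real.rpow_pos_of_pos (by norm_num) _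

lemma rr_lt : rr < 1 := Real.rpow_lt_one_of_one_lt_of_neg (by norm_num) (by norm_num)

lemma dQ_rpow {a : ℕ → ℕ} (ha : ∀ k, 1 ≤ a k) {s : St} (h : Good a s) :
    ((dQ a s : ℕ) : ℝ) ^ (-(1 / 3) : ℝ) ≤ 2 * rr ^ (idx s) := by
  set k := idx s with hk
  have h1 : (1 : ℝ) ≤ qd a (k + 1) := by exact_mod_cast qd_pos ha k
  have h2 : (qd a (k + 1) : ℝ) ≤ dQ a s := by exact_mod_cast dQ_ge h
  have h3 : (2 : ℝ) ^ k ≤ 2 * (qd a (k + 1) : ℝ) ^ 2 := by exact_mod_cast qd_growth ha k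
  have h4 : ((dQ a s : ℕ) : ℝ) ^ (-(1 / 3) : ℝ) ≤ (qd a (k + 1) : ℝ) ^ (-(1 / 3) : ℝ) :=
    Real.rpow_le_rpow_of_nonpos (by linarith) h2 (by norm_num)
  refine h4.trans ?_
  have h5 : (qd a (k + 1) : ℝ) ^ (-(1 / 3) : ℝ) = ((qd a (k + 1) : ℝ) ^ 2) ^ (-(1 / 6) : ℝ) := by
    rw [← Real.rpow_natCast, ← Real.rpow_mul (by linarith)]
    norm_num
  have h6 : ((qd a (k + 1) : ℝ) ^ 2) ^ (-(1 / 6) : ℝ) ≤ ((2 : ℝ) ^ k / 2) ^ (-(1 / 6) : ℝ) := by
    refine Real.rpow_le_rpow_of_nonpos (by positivity) ?_ (by norm_num)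
    linarith
  have h7 : ((2 : ℝ) ^ k / 2) ^ (-(1 / 6) : ℝ) = rr ^ k * ((2:ℝ)⁻¹) ^ (-(1 / 6) : ℝ) := by
    rw [div_eq_mul_inv, Real.mul_rpow (by positivity) (by positivity), rr]
    congr 1
    rw [← Real.rpow_natCast, ← Real.rpow_natCast, ← Real.rpow_mul (by norm_num),
      ← Real.rpow_mul (by norm_num), mul_comm]
  have h8 : ((2:ℝ)⁻¹) ^ (-(1 / 6) : ℝ) ≤ 2 := by
    rw [Real.inv_rpow (by norm_num), ← Real.rpow_neg (by norm_num), neg_neg]
    calc (2:ℝ) ^ (1 / 6 : ℝ) ≤ 2 ^ (1 : ℝ) :=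
          Real.rpow_le_rpow_of_exponent_le (by norm_num) (by norm_num)
      _ = 2 := Real.rpow_one _
  have h9 : 0 < rr ^ k := pow_pos rr_pos k
  rw [h5]
  refine h6.trans ?_
  rw [h7]
  nlinarith

/-- bound for one term -/
def Bd (G : ℝ) (k : ℕ) : ℝ := (G + 2) ^ 3 * ((k : ℝ) + 1) ^ 6 * (2 * rr ^ k)

lemma Bd_nonneg {G : ℝ} (hG : 0 ≤ G) (k : ℕ) : 0 ≤ Bd G k := by
  have := rr_pos
  unfold Bd
  positivity

/-- the potential -/
def Psi' (a : ℕ → ℕ) (G : ℝ) : St → ℝ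
  | St.plus k => ∑ i ∈ Finset.range k, ((a i : ℝ) + 1) * Bd G i + Bd G k
  | St.minus k j => ∑ i ∈ Finset.range k, ((a i : ℝ) + 1) * Bd G i + j * Bd G k

lemma m_le {a : ℕ → ℕ} {G : ℝ} (hG : 0 ≤ G) (hGa : ∀ k, (a k : ℝ) ≤ G * ((k : ℝ) + 1) ^ 2)
    {t r : St} {σ : Sym} (h : Step a t σ r) : (σ.m : ℝ) ≤ (G + 2) * ((idx r : ℝ) + 1) ^ 2 := by
  have key : ∀ k l : ℕ, k + 1 ≤ l → (a k : ℝ) + 2 ≤ (G + 2) * ((l : ℝ) + 1) ^ 2 := by
    intro k l hkl
    have h1 := hGa k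
    have h2 : (k : ℝ) + 1 ≤ (l : ℝ) + 1 := by
      have : (k : ℝ) + 1 ≤ l := by exact_mod_cast hkl
      linarith
    have hk0 : (0 : ℝ) ≤ k := Nat.cast_nonneg k
    have h3 : ((k : ℝ) + 1) ^ 2 ≤ ((l : ℝ) + 1) ^ 2 := by gcongr
    have h4 : 1 ≤ ((l : ℝ) + 1) ^ 2 := by nlinarith
    nlinarith
  cases h with
  | pp k i h1 h2 =>
    have := key k (k + 1) le_rfl
    simp only [idx]
    linarith
  | pm k i h1 h2 =>
    have := key k (k + 1) le_rfl
    simp only [idx]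
    push_cast at this ⊢
    linarith
  | mm k j h1 h2 =>
    simp only [idx]
    have hk0 : (0 : ℝ) ≤ k := Nat.cast_nonneg k
    push_cast
    nlinarith [mul_nonneg hG (sq_nonneg ((k : ℝ) + 1))]
  | mp k i h1 h2 =>
    have := key (k + 1) (k + 2) le_rfl
    simp only [idx]
    push_cast at this ⊢
    linarith
  | mn k i h1 h2 =>
    have := key (k + 1) (k + 2) le_rfl
    simp only [idx]
    push_cast at this ⊢
    linarith

lemma psi_step {a : ℕ → ℕ} {G : ℝ} (hG : 0 ≤ G)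
    {t r : St} {σ : Sym} (h : Step a t σ r) : Psi' a G t + Bd G (idx r) ≤ Psi' a G r := by
  have hB := fun k => Bd_nonneg hG k
  cases h with
  | pp k i h1 h2 =>
    simp only [Psi', idx, Finset.sum_range_succ]
    have : 0 ≤ (a k : ℝ) * Bd G k := mul_nonneg (Nat.cast_nonneg _) (hB k)
    linarith
  | pm k i h1 h2 =>
    simp only [Psi', idx, Finset.sum_range_succ]
    have : 0 ≤ (a k : ℝ) * Bd G k := mul_nonneg (Nat.cast_nonneg _) (hB k)
    push_cast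
    linarith
  | mm k j h1 h2 =>
    simp only [Psi', idx]
    push_cast
    linarith
  | mp k i h1 h2 =>
    simp only [Psi', idx, Finset.sum_range_succ]
    have h3 : 0 ≤ (a (k + 1) : ℝ) * Bd G (k + 1) := mul_nonneg (Nat.cast_nonneg _) (hB _)
    have h4 := hB k
    have h5 := hB (k + 1)
    linarith
  | mn k i h1 h2 =>
    simp only [Psi', idx, Finset.sum_range_succ]
    have h3 : 0 ≤ (a (k + 1) : ℝ) * Bd G (k + 1) := mul_nonneg (Nat.cast_nonneg _) (hB _)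
    have h4 := hB k
    have h5 := hB (k + 1)
    push_cast
    linarith

/-- the terms of the majorant series -/
def Tm (G : ℝ) (i : ℕ) : ℝ := (G * ((i : ℝ) + 1) ^ 2 + 1) * Bd G i

lemma summable_Tm {G : ℝ} (hG : 0 ≤ G) : Summable (Tm G) := by
  have hr0 := rr_pos
  have hr1 := rr_lt
  have h1 : Summable fun n : ℕ => ((n : ℝ)) ^ 8 * rr ^ n :=
    summable_pow_mul_geometric_of_norm_lt_one 8 (by
      rw [Real.norm_of_nonneg hr0.le]; exact hr1)
  have h2 : Summable fun n : ℕ => (((n + 1 : ℕ) : ℝ)) ^ 8 * rr ^ (n + 1) :=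
    (summable_nat_add_iff 1).mpr h1
  have h3 : Summable fun n : ℕ => ((G + 2) ^ 4 * 2 * rr⁻¹) *
      ((((n + 1 : ℕ) : ℝ)) ^ 8 * rr ^ (n + 1)) := h2.mul_left _
  refine Summable.of_nonneg_of_le (fun i => ?_) (fun i => ?_) h3
  · have := Bd_nonneg hG i
    unfold Tm
    positivity
  · unfold Tm Bd
    have hi : (0 : ℝ) ≤ i := Nat.cast_nonneg i
    have h4 : G * ((i : ℝ) + 1) ^ 2 + 1 ≤ (G + 2) * ((i : ℝ) + 1) ^ 2 := by nlinarith
    have e : ((G + 2) ^ 4 * 2 * rr⁻¹) * ((((i + 1 : ℕ) : ℝ)) ^ 8 * rr ^ (i + 1)) =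
        (G + 2) * ((i : ℝ) + 1) ^ 2 * ((G + 2) ^ 3 * ((i : ℝ) + 1) ^ 6 * (2 * rr ^ i)) := by
      push_cast
      field_simp
      ring
    rw [e]
    have h5 : 0 ≤ (G + 2) ^ 3 * ((i : ℝ) + 1) ^ 6 * (2 * rr ^ i) := by positivity
    gcongr

lemma psi_le {a : ℕ → ℕ} {G : ℝ} (hG : 0 ≤ G)
    (hGa : ∀ k, (a k : ℝ) ≤ G * ((k : ℝ) + 1) ^ 2) {s : St} (h : Good a s) :
    Psi' a G s ≤ ∑' i, Tm G i := by
  have hB := fun k => Bd_nonneg hG k
  have hT : ∀ i, 0 ≤ Tm G i := fun i => by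
    have := hB i
    unfold Tm
    positivity
  have hle : ∀ i, ((a i : ℝ) + 1) * Bd G i ≤ Tm G i := fun i => by
    unfold Tm
    have h1 := hGa i
    have h2 := hB i
    gcongr
  have h1 : Psi' a G s ≤ ∑ i ∈ Finset.range (idx s + 1), ((a i : ℝ) + 1) * Bd G i := by
    rw [Finset.sum_range_succ]
    cases s with
    | plus k =>
      simp only [Psi', idx]
      have : 0 ≤ (a k : ℝ) * Bd G k := mul_nonneg (Nat.cast_nonneg _) (hB k)
      linarith
    | minus k j =>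
      simp only [Psi', idx]
      have hj : (j : ℝ) ≤ a k := by exact_mod_cast h.2
      have : (j : ℝ) * Bd G k ≤ (a k : ℝ) * Bd G k := mul_le_mul_of_nonneg_right hj (hB k)
      have h2 := hB k
      linarith
  refine h1.trans ((Finset.sum_le_sum fun i _ => hle i).trans ?_)
  exact (summable_Tm hG).sum_le_tsum _ fun i _ => hT i

theorem sum : T_SUM := by
  intro G₀
  set G : ℝ := max G₀ 0 with hGdef
  have hG : 0 ≤ G := le_max_right _ _
  refine ⟨∑' i, Tm G i, ?_⟩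
  intro a ha hGa₀ b v s h
  have hGa : ∀ k, (a k : ℝ) ≤ G * ((k : ℝ) + 1) ^ 2 := by
    intro k
    refine (hGa₀ k).trans ?_
    have : G₀ ≤ G := le_max_left _ _
    gcongr
  refine le_trans ?_ (psi_le hG hGa (adm_good ha h))
  have hB := fun k => Bd_nonneg hG k
  have key : ∑ j ∈ Finset.range v.length,
      (((v[j]?.getD ⟨true, 2, 1⟩).m : ℝ)) ^ 3 * (deg (v.take (j + 1))) ^ (-(1 / 3) : ℝ) +
      Psi' a G (rootSt b) ≤ Psi' a G s := by
    induction h with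
    | nil => simp
    | @snoc t r w σ h h' ih =>
      rw [List.length_append, List.length_singleton, Finset.sum_range_succ]
      have e1 : ∑ j ∈ Finset.range w.length,
          (((((w ++ [σ])[j]?).getD ⟨true, 2, 1⟩).m : ℝ)) ^ 3 *
            (deg ((w ++ [σ]).take (j + 1))) ^ (-(1 / 3) : ℝ) =
          ∑ j ∈ Finset.range w.length,
          ((((w[j]?).getD ⟨true, 2, 1⟩).m : ℝ)) ^ 3 *
            (deg (w.take (j + 1))) ^ (-(1 / 3) : ℝ) := by
        refine Finset.sum_congr rfl fun j hj => ?_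
        rw [Finset.mem_range] at hj
        rw [List.getElem?_append_left hj, List.take_append_of_le_length (by omega)]
      have e2 : ((w ++ [σ])[w.length]?).getD ⟨true, 2, 1⟩ = σ := by simp
      have e3 : (w ++ [σ]).take (w.length + 1) = w ++ [σ] := by
        rw [List.take_of_length_le (by simp)]
      rw [e1, e2, e3]
      have hg : Good a r := step_good ha h'
      have h1 := (admv a ha b (w ++ [σ]) r (Adm.snoc h h')).2.2
      rw [← h1]
      have h2 := dQ_rpow ha hg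
      have h3 := m_le hG hGa h'
      have h4 := psi_step hG h'
      have h5 : (σ.m : ℝ) ^ 3 * ((dQ a r : ℕ) : ℝ) ^ (-(1 / 3) : ℝ) ≤ Bd G (idx r) := by
        have h6 : (σ.m : ℝ) ^ 3 ≤ ((G + 2) * ((idx r : ℝ) + 1) ^ 2) ^ 3 := by gcongr
        have h7 : 0 ≤ ((dQ a r : ℕ) : ℝ) ^ (-(1 / 3) : ℝ) := by positivity
        calc (σ.m : ℝ) ^ 3 * ((dQ a r : ℕ) : ℝ) ^ (-(1 / 3) : ℝ)
            ≤ ((G + 2) * ((idx r : ℝ) + 1) ^ 2) ^ 3 * (2 * rr ^ (idx r)) := by gcongr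
          _ = Bd G (idx r) := by unfold Bd; ring
      linarith
  have h0 : 0 ≤ Psi' a G (rootSt b) := by
    cases b
    · simp only [rootSt, Psi', Finset.range_zero, Finset.sum_empty]
      linarith [hB 0]
    · simp only [rootSt, Psi', Finset.range_zero, Finset.sum_empty]
      push_cast
      linarith [hB 0]
  linarith

end H31.ST.H73
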